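import Mathlib

open Set Filter Topology Function

namespace Pool.Agent.Results.MP_6bd6f6_an.Cex

/-- minimal sets -/
def MinSet {X : Type} [TopologicalSpace X] (T : X → X) (M : Set X) : Prop :=
  M.Nonempty ∧ IsClosed M ∧ MapsTo T M M ∧
    ∀ N ⊆ M, N.Nonempty → IsClosed N → MapsTo T N N → N = M

/-- transitive with dense minimal points -/
def MSystem {X : Type} [TopologicalSpace X] (T : X → X) : Prop :=
  (∀ U V : Set X, IsOpen U → IsOpen V → U.Nonempty → V.Nonempty → ∃ n, ∃ x ∈ U, T^[n] x ∈ V) ∧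
    Dense {x | ∃ M, MinSet T M ∧ x ∈ M}

def LYSens {X : Type} [MetricSpace X] (T : X → X) : Prop :=
  ∃ δ > 0, ∀ x, ∀ U ∈ 𝓝 x, ∃ y ∈ U, liminf (fun n => dist (T^[n] x) (T^[n] y)) atTop = 0 ∧
    δ < limsup (fun n => dist (T^[n] x) (T^[n] y)) atTop

def L : ℕ → ℕ
  | 0 => 1
  | n + 1 => L n * (n + 4)

lemma L_pos (n : ℕ) : 0 < L n := by induction n <;> simp_all [L]
instance (n : ℕ) : NeZero (L n) := ⟨(L_pos n).ne'⟩
lemma L_dvd {a b : ℕ} (h : a ≤ b) : (L a : ℤ) ∣ L b := by
  induction h with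
  | refl => rfl
  | step _ ih => exact ih.trans (by simp [L])

def c (n : ℕ) (i : ℤ) : ℕ := if i / L n % (n + 4) < 2 then 1 else (i / L n % (n + 4) - 2).toNat

lemma c_le (n : ℕ) (i : ℤ) : c n i < n + 2 := by
  have := Int.emod_lt_of_pos (i / L n) (show (0 : ℤ) < n + 4 by omega)
  unfold c; split_ifs <;> omega

def P : ℕ → ℤ → Bool
  | 0, _ => false
  | 1, _ => true
  | n + 2, i => P (c n i) i
decreasing_by exact c_le _ _

lemma per (m : ℕ) : ∀ n, m ≤ n + 1 → ∀ i j : ℤ, (L n : ℤ) ∣ j → P m (j + i) = P m i := by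
  induction m using Nat.strong_induction_on with | _ m ih => ?_
  intro n h i j hj
  match m, ih with
  | 0, _ => simp [P]
  | 1, _ => simp [P]
  | r + 2, ih =>
    obtain ⟨a, rfl⟩ := (L_dvd (show r + 1 ≤ n by omega)).trans hj
    have : c r (L (r + 1) * a + i) = c r i := by
      have := L_pos r
      simp only [c, L, Nat.cast_mul, mul_assoc]
      rw [Int.mul_add_ediv_left _ _ (by omega)]; simp
    rw [P, P, this]
    exact ih _ (c_le r i) (r + 1) (by have := c_le r i; omega) _ _ (dvd_mul_right _ _)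

lemma blk (m : ℕ) : ∀ n, ∀ j : ℤ, (L n : ℤ) ∣ j →
    ∃ m' ≤ n + 1, ∀ i : ℤ, 0 ≤ i → i < L n → P m (j + i) = P m' i := by
  induction m using Nat.strong_induction_on with | _ m ih => ?_
  intro n j hj
  rcases le_or_gt m (n + 1) with h | h
  · exact ⟨m, h, fun i _ _ => per m n h i j hj⟩
  obtain ⟨r, rfl⟩ : ∃ r, m = r + 2 := ⟨m - 2, by omega⟩
  obtain ⟨m', a, b⟩ := ih _ (c_le r j) n j hj
  refine ⟨m', a, fun i i0 i1 => ?_⟩
  obtain ⟨a, rfl⟩ := hj
  obtain ⟨e, he⟩ := L_dvd (show n ≤ r by omega)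
  have : (L n : ℤ) ≠ 0 := by omega
  rw [P, ← b i i0 i1]
  simp only [c, he, ← Int.ediv_ediv_of_nonneg (show (0 : ℤ) ≤ L n by omega), Int.mul_add_ediv_left _ _ this,
    Int.ediv_eq_zero_of_lt i0 i1, Int.mul_ediv_cancel_left _ this, add_zero]

abbrev Y := (∀ n, ZMod (L n)) × (ℤ → Bool)

def S (y : Y) : Y := (y.1 + 1, fun i => y.2 (i + 1))
def q (m : ℕ) (j : ℤ) : Y := (fun _ => j, fun i => P m (j + i))
def X : Set Y := closure {y | ∃ m j, y = q m j}
def Cp (y : Y) : Prop := ∀ a b, a ≤ b → ∀ j : ℤ, y.1 b = j → y.1 a = j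
def M (m : ℕ) : Set Y := {y | Cp y ∧ ∀ j : ℤ, y.1 m = j → ∀ i, y.2 i = P m (j + i)}

lemma S_cont : Continuous S := by unfold S; fun_prop
lemma S_q (m : ℕ) (j : ℤ) : S (q m j) = q m (j + 1) := by
  simp [S, q, add_assoc, add_comm (1 : ℤ)]; ext; simp
lemma S_it (n : ℕ) (y : Y) : S^[n] y = (y.1 + n, fun i => y.2 (i + n)) := by
  induction n with
  | zero => simp
  | succ n ih => rw [iterate_succ_apply', ih]; simp [S, add_assoc, add_comm (1 : ℤ)]

lemma cl (a : ℕ) (j : ZMod (L a)) {A : Set Y} (h : IsClosed A) : IsClosed {y : Y | y.1 a = j → y ∈ A} := by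
  simp only [imp_iff_not_or]
  exact IsClosed.union ((isClosed_discrete {j}ᶜ).preimage (f := fun y : Y => y.1 a) (by fun_prop)) h

lemma cp_closed : IsClosed {y | Cp y} := by
  simp only [Cp, ofPred_forall (p := fun (_ : ℕ) (_ : Y) => _), ofPred_forall (p := fun (_ : ℤ) (_ : Y) => _),
    ofPred_forall (p := fun (_ : _ ≤ _) (_ : Y) => _)]
  exact isClosed_iInter fun a => isClosed_iInter fun b => isClosed_iInter fun _ =>
    isClosed_iInter fun j => cl _ _ (isClosed_eq (by fun_prop) continuous_const)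

lemma M_closed (m : ℕ) : IsClosed (M m) := cp_closed.and (by
  rw [ofPred_forall]
  refine isClosed_iInter fun j => cl _ _ (A := {y | ∀ i, y.2 i = P m (j + i)}) ?_
  rw [ofPred_forall]
  exact isClosed_iInter fun i => isClosed_eq (by fun_prop) continuous_const)

lemma cast_iff {n : ℕ} {a b : ℤ} : (a : ZMod (L n)) = b ↔ (L n : ℤ) ∣ b - a :=
  ZMod.intCast_eq_intCast_iff_dvd_sub _ _ _

lemma q_M (m : ℕ) (j : ℤ) : q m j ∈ M m := ⟨fun _ _ h _ e => cast_iff.2 ((L_dvd h).trans (cast_iff.1 e)),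
  fun k e i => by
    rw [← per m m (by omega) (k + i) _ (cast_iff.1 (show (k : ZMod (L m)) = j from e.symm)), q]
    ring_nf⟩

lemma M_S (m : ℕ) : MapsTo S (M m) (M m) := fun y h => by
  have e : ∀ a (j : ℤ), (S y).1 a = j ↔ y.1 a = (j - 1 : ℤ) := fun a j => by simp [S, eq_sub_iff_add_eq]
  exact ⟨fun a b l j k => (e _ _).2 (h.1 a b l _ ((e _ _).1 k)), fun j k i => by
    rw [S, h.2 _ ((e _ _).1 k)]; congr 1; ring⟩

lemma lim {m : ℕ} {x : Y} {y : ℕ → Y} (hx : x ∈ M m) (hy : ∀ r, y r ∈ M m)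
    (e : ∀ r, (y r).1 r = x.1 r) : Tendsto y atTop (𝓝 x) := by
  have k : ∀ a r, a ≤ r → ∃ j : ℤ, (y r).1 a = j ∧ x.1 a = j := fun a r h => by
    obtain ⟨j, hj⟩ := ZMod.intCast_surjective (x.1 r)
    exact ⟨j, (hy r).1 a r h j ((e r).trans hj.symm), hx.1 a r h j hj.symm⟩
  refine (Prod.tendsto_iff _ _).2 ⟨tendsto_pi_nhds.2 fun a => ?_, tendsto_pi_nhds.2 fun i => ?_⟩ <;>
    refine tendsto_const_nhds.congr' ?_
  · filter_upwards [eventually_ge_atTop a] with r h
    obtain ⟨j, a, b⟩ := k a r h; rw [a, b]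
  · filter_upwards [eventually_ge_atTop m] with r h
    obtain ⟨j, a, b⟩ := k m r h; rw [hx.2 j b, (hy r).2 j a]

lemma M_X (m : ℕ) : M m ⊆ X := fun x hx => by
  choose j hj using fun r => ZMod.intCast_surjective (x.1 r)
  exact mem_closure_of_tendsto (lim hx (fun r => q_M m (j r)) hj) (.of_forall fun r => ⟨m, _, rfl⟩)

lemma X_S : MapsTo S X X := MapsTo.closure (by rintro _ ⟨m, j, rfl⟩; exact ⟨m, _, S_q m j⟩) S_cont

lemma X_sub : X ⊆ {y | ∀ n, ∀ j : ℤ, y.1 n = j →
    y ∈ ⋃ m ∈ Iic (n + 1), {y : Y | ∀ i : ℤ, 0 ≤ i → i < L n → y.2 (i - j) = P m i}} := by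
  refine closure_minimal ?_ ?_
  · rintro _ ⟨m, k, rfl⟩ n j e
    obtain ⟨m', a, b⟩ := blk m n (k - j) (cast_iff.1 e.symm)
    exact mem_biUnion a fun i i0 i1 => by rw [← b i i0 i1, q]; ring_nf
  · simp only [ofPred_forall (p := fun (_ : ℕ) (_ : Y) => _), ofPred_forall (p := fun (_ : ℤ) (_ : Y) => _)]
    refine isClosed_iInter fun n => isClosed_iInter fun j => cl _ _
      ((finite_Iic _).isClosed_biUnion fun m _ => isClosed_iInter fun i => ?_)
    simp only [ofPred_forall]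
    exact isClosed_iInter fun _ => isClosed_iInter fun _ => isClosed_eq (by fun_prop) continuous_const

def off : ℕ → ℕ
  | 0 => 0
  | n + 1 => off n + L n

lemma off_le (n : ℕ) : n ≤ off n ∧ off n + n < L n := by
  induction n with
  | zero => simp [off, L]
  | succ n ih => have := L_pos n; simp only [off, L]; constructor <;> nlinarith [ih.1, ih.2]

def x0 : Y := (fun n => off n, fun _ => false)

lemma x0_M : x0 ∈ M 0 := ⟨fun a b h j e => by
  have : (L a : ℤ) ∣ off b - off a := by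
    clear e; induction h with
    | refl => simp
    | step h ih => simpa [off, add_sub_right_comm] using ih.add (L_dvd h)
  have e : (L b : ℤ) ∣ j - off b := cast_iff.1 (by simpa [x0] using e)
  simpa [x0] using cast_iff.2 (show (L a : ℤ) ∣ j - off a by simpa using ((L_dvd h).trans e).add this),
  fun _ _ _ => by simp [x0, P]⟩

lemma iso {y : Y} (hy : y ∈ X) (h1 : y.1 = x0.1) (h2 : y.2 0 = false) : y = x0 := by
  have k : ∀ n, ∀ i : ℤ, 0 ≤ i → i < L n → y.2 (i - off n) = false := fun n => by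
    induction n with
    | zero => intro i a b; obtain rfl : i = 0 := by simp [L] at b; omega
              simpa [off] using h2
    | succ n ih =>
      obtain ⟨m, hm, e⟩ := mem_iUnion₂.1 (X_sub hy (n + 1) (off (n + 1)) (by simp [h1, x0]))
      have p := L_pos n
      have k : ∀ i : ℤ, 0 ≤ i → i < L n → P m (L n + i) = false := fun i a b => by
        rw [← e _ (by omega) (by simp only [L]; push_cast; nlinarith), ← ih i a b]
        simp only [off]; push_cast; ring_nf
      have l : m ≤ n + 1 := by_contra fun l => by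
        obtain rfl : m = n + 2 := by have := mem_Iic.1 hm; omega
        have := k 0 le_rfl (by omega)
        rw [P, show c n (L n + 0) = 1 by
          rw [c, add_zero, Int.ediv_self (by omega), Int.emod_eq_of_lt (by omega) (by omega)]; rfl] at this
        simp [P] at this
      intro i a b
      rw [e i a b, ← k (i % L n) (Int.emod_nonneg _ (by omega)) (Int.emod_lt_of_pos _ (by omega)),
        per m n l _ _ dvd_rfl, ← per m n l (i % L n) _ Int.dvd_self_sub_emod, sub_add_cancel]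
  refine Prod.ext h1 (funext fun t => ?_)
  have := off_le t.natAbs
  simpa [x0] using k t.natAbs (t + off t.natAbs) (by omega) (by omega)

lemma big (j : ℤ) : ∀ᶠ r in atTop, |j| < L r := by
  filter_upwards [eventually_ge_atTop j.natAbs] with r h
  have := off_le r; rw [abs_lt]; omega

lemma approx (m : ℕ) (j : ℤ) :
    Tendsto (fun r => q (r + 3) (L (r + 1) * (m + 2) + L r + j)) atTop (𝓝 (q m j)) := by
  refine (Prod.tendsto_iff _ _).2 ⟨tendsto_pi_nhds.2 fun a => ?_, tendsto_pi_nhds.2 fun i => ?_⟩ <;>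
    refine tendsto_const_nhds.congr' ?_
  · filter_upwards [eventually_ge_atTop a] with r h
    exact cast_iff.2 (by simpa using ((L_dvd (by omega)).mul_right _).add (L_dvd h))
  · filter_upwards [eventually_ge_atTop m, big (j + i)] with r h l
    have p := L_pos (r + 1)
    rw [abs_lt] at l
    simp only [q]
    rw [P, show c (r + 1) _ = m by
      rw [c, add_assoc, add_assoc, Int.mul_add_ediv_left _ _ (by omega), Int.ediv_eq_zero_of_lt (by omega)
        (by simp only [L]; push_cast; nlinarith), add_zero, Int.emod_eq_of_lt (by omega) (by omega),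
        if_neg (by omega)]; simp, add_assoc, per m r (by omega) _ _
      (((L_dvd (by omega)).mul_right _).add dvd_rfl)]

lemma shift (m : ℕ) (j : ℤ) : Tendsto (fun r => q m (j + L r)) atTop (𝓝 (q m j)) :=
  lim (q_M m j) (fun _ => q_M m _) fun r => by simp [q]

instance : CompactSpace X := isCompact_iff_compactSpace.1 isClosed_closure.isCompact

def T : X → X := X_S.restrict

lemma T_it (n : ℕ) (x : X) : (T^[n] x).1 = S^[n] x.1 := by rw [T, X_S.iterate_restrict]; rfl

def Q (m : ℕ) (j : ℤ) : X := ⟨q m j, subset_closure ⟨m, j, rfl⟩⟩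

lemma dns {U : Set X} (h : IsOpen U) (hn : U.Nonempty) : ∃ m j, Q m j ∈ U := by
  obtain ⟨x, hx⟩ := hn
  obtain ⟨V, hV, rfl⟩ := isOpen_induced_iff.1 h
  obtain ⟨_, a, m, j, rfl⟩ := mem_closure_iff.1 x.2 V hV hx
  exact ⟨m, j, a⟩

lemma minM (m : ℕ) : MinSet T (Subtype.val ⁻¹' M m) := by
  refine ⟨⟨Q m 0, q_M m 0⟩, (M_closed m).preimage continuous_subtype_val, fun x h => M_S m h,
    fun N a ⟨y, hy⟩ b d => a.antisymm fun x hx => ?_⟩
  refine b.mem_of_tendsto (f := fun r => T^[(x.1.1 r - y.1.1 r).val] y) (b := atTop)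
    (tendsto_subtype_rng.2 (lim hx (fun r => a (d.iterate _ hy)) fun r => ?_))
    (.of_forall fun r => d.iterate _ hy)
  rw [T_it, S_it]
  change y.1.1 r + ((x.1.1 r - y.1.1 r).val : ZMod (L r)) = _
  rw [ZMod.natCast_zmod_val, add_sub_cancel]

theorem result : ∃ (X : Type) (_ : MetricSpace X) (T : X → X), CompactSpace X ∧ Nontrivial X ∧
    (∀ x : X, ¬ IsOpen {x}) ∧ Continuous T ∧ Surjective T ∧ MSystem T ∧ ¬ MinSet T univ ∧
    ¬ LYSens T := by
  have Tc : Continuous T := S_cont.restrict X_S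
  have tq : ∀ {m : ℕ → ℕ} {j : ℕ → ℤ} {a b}, Tendsto (fun r => q (m r) (j r)) atTop (𝓝 (q a b)) →
      Tendsto (fun r => Q (m r) (j r)) atTop (𝓝 (Q a b)) := fun h => tendsto_subtype_rng.2 h
  have n1 : Q 1 0 ∉ Subtype.val ⁻¹' M 0 := fun h => by simpa [Q, q, P] using h.2 0 rfl 0
  letI : MetricSpace X := TopologicalSpace.metrizableSpaceMetric X
  refine ⟨X, inferInstance, T, inferInstance, ⟨Q 0 0, Q 1 0, fun e => n1 (e ▸ q_M 0 0)⟩, fun x h => ?_, Tc,
    fun x => ?_, ⟨fun U V hU hV a b => ?_, dense_iff_inter_open.2 fun U a b => ?_⟩, fun h =>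
      n1 ((h.2.2.2 _ (subset_univ _) (minM 0).1 (minM 0).2.1 (minM 0).2.2.1).symm ▸ mem_univ _), ?_⟩
  · obtain ⟨m, j, rfl⟩ := dns h (singleton_nonempty x)
    obtain ⟨r, e⟩ := ((tq (shift m j)).eventually (h.mem_nhds rfl)).exists
    have := cast_iff.1 (congrFun (congrArg (·.1.1) e) (r + 1)).symm
    have p := L_pos r
    have := Int.le_of_dvd (by omega) this
    simp only [L] at this; push_cast at this; nlinarith
  · by_contra h
    obtain ⟨m, j, e⟩ := dns (isCompact_range Tc).isClosed.isOpen_compl ⟨x, h⟩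
    exact e ⟨Q m (j - 1), Subtype.ext ((S_q m _).trans (by simp [Q]))⟩
  · obtain ⟨m, j, a⟩ := dns hU a
    obtain ⟨m', j', b⟩ := dns hV b
    obtain ⟨r, a, b⟩ := (((tq (approx m j)).eventually (hU.mem_nhds a)).and
      ((tq (approx m' j')).eventually (hV.mem_nhds b))).exists
    generalize (L (r + 1) : ℤ) * (m + 2) + L r + j = k at a
    generalize (L (r + 1) : ℤ) * (m' + 2) + L r + j' = k' at b
    obtain ⟨s, b, l⟩ := (((tq (shift _ k')).eventually (hV.mem_nhds b)).and (big (k - k'))).exists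
    obtain ⟨n, hn⟩ := Int.eq_ofNat_of_zero_le (show 0 ≤ k' + L s - k by rw [abs_lt] at l; omega)
    suffices T^[n] (Q (r + 3) k) = Q (r + 3) (k' + L s) from ⟨n, _, a, this ▸ b⟩
    refine Subtype.ext ?_
    rw [T_it, S_it, show k' + L s = k + n by omega]
    simp [Q, q, add_assoc, add_comm (n : ℤ)]; ext; simp
  · obtain ⟨m, j, e⟩ := dns a b
    exact ⟨_, e, _, minM m, q_M m j⟩
  rintro ⟨δ, δ0, h⟩
  obtain ⟨y, hy, h1, h2⟩ := h ⟨x0, M_X 0 x0_M⟩ {y | y.1.2 0 = false}
    ((isOpen_discrete {false}).preimage (f := fun y : X => y.1.2 0) (by fun_prop) |>.mem_nhds rfl)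
  suffices y.1.1 = x0.1 by
    obtain rfl : y = ⟨x0, M_X 0 x0_M⟩ := Subtype.ext (iso y.2 this hy)
    simp at h2; linarith
  funext r
  obtain ⟨η, η0, hη⟩ := Metric.uniformContinuous_iff.1 (CompactSpace.uniformContinuous_of_continuous
    (f := fun y : X => ((y.1.1 r).val : ℝ)) ((continuous_of_discreteTopology
      (f := fun a : ZMod (L r) => (a.val : ℝ))).comp (by fun_prop))) 1 one_pos
  obtain ⟨n, hn⟩ := (frequently_lt_of_liminf_lt (isCoboundedUnder_ge_of_le atTop fun n =>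
    Metric.dist_le_diam_of_mem isCompact_univ.isBounded (mem_univ _) (mem_univ _)) (h1.trans_lt η0)).exists
  have := hη hn
  rw [Real.dist_eq, ← Int.cast_natCast, ← Int.cast_natCast (R := ℝ) (ZMod.val _), ← Int.cast_sub,
    ← Int.cast_abs, ← Int.cast_one, Int.cast_lt, Int.abs_lt_one_iff, sub_eq_zero, Nat.cast_inj] at this
  simpa [T_it, S_it] using (ZMod.val_injective _ this).symm

end Pool.Agent.Results.MP_6bd6f6_an.Cex
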